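import Pool.Agent.H74.FL.Main

/-!
# MP_ae266a_pr : the time constant for Uniform[0,1] weights is at least 0.2504
-/

open MeasureTheory ProbabilityTheory Filter Topology

open H98.FPP in
/-- For independent Uniform[0,1] weights on the edges of the square lattice, the passage times
`T_n` from `(0,0)` to `(n,0)` are integrable, `E[T_n] / n` converges, and its limit, the time
constant, is at least `0.2504`. -/
theorem Pool.Agent.Results.MP_ae266a_pr.LowerBound.result
    {Ω : Type*} [MeasurableSpace Ω] (P : Measure Ω) [IsProbabilityMeasure P]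
    (w : Sym2 (ℤ × ℤ) → Ω → ℝ)
    (meas : ∀ e ∈ lattice.edgeSet, Measurable (w e))
    (indep : iIndepFun (fun e : lattice.edgeSet => w e) P)
    (law : ∀ e ∈ lattice.edgeSet, P.map (w e) = volume.restrict (Set.Icc (0 : ℝ) 1)) :
    (∀ n : ℕ, Integrable (fun ω => passage (fun e => w e ω) n) P) ∧
    ∃ τ : ℝ, Tendsto (fun n : ℕ => (∫ ω, passage (fun e => w e ω) n ∂P) / n) atTop (𝓝 τ) ∧
      0.2504 ≤ τ := by
  have h : IsUnif P w := ⟨meas, indep, law⟩
  refine ⟨fun n => h.integrable n, ?_⟩
  have hb : BddBelow (Set.range fun m : ℕ => mean m / m) := by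
    refine ⟨0, ?_⟩
    rintro _ ⟨m, rfl⟩
    exact div_nonneg (h.mean_nonneg m) (Nat.cast_nonneg _)
  have hlim := h.subadd.tendsto_lim hb
  simp only [← h.mean_eq] at hlim
  exact ⟨_, hlim, Pool.Agent.H74.FL.IsUnif_lower h hlim⟩
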