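import Pool.Agent.H98.FPP.Limit
import Pool.Agent.H98.FPP.D7

/-!
# MP_ae266a_pr : the time constant for Uniform[0,1] weights is less than 0.365
-/

open MeasureTheory ProbabilityTheory Filter Topology

open H98.FPP in
/-- For independent Uniform[0,1] weights on the edges of the square lattice, the passage times
`T_n` from `(0,0)` to `(n,0)` are integrable, `E[T_n] / n` converges, and its limit, the time
constant, is less than `0.365`. -/
theorem Pool.Agent.Results.MP_ae266a_pr.UpperBound.result
    {Ω : Type*} [MeasurableSpace Ω] (P : Measure Ω) [IsProbabilityMeasure P]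
    (w : Sym2 (ℤ × ℤ) → Ω → ℝ)
    (meas : ∀ e ∈ lattice.edgeSet, Measurable (w e))
    (indep : iIndepFun (fun e : lattice.edgeSet => w e) P)
    (law : ∀ e ∈ lattice.edgeSet, P.map (w e) = volume.restrict (Set.Icc (0 : ℝ) 1)) :
    (∀ n : ℕ, Integrable (fun ω => passage (fun e => w e ω) n) P) ∧
    ∃ τ : ℝ, Tendsto (fun n : ℕ => (∫ ω, passage (fun e => w e ω) n ∂P) / n) atTop (𝓝 τ) ∧
      τ < 0.365 := by
  have h : IsUnif P w := ⟨meas, indep, law⟩
  refine ⟨fun n => h.integrable n, ?_⟩
  obtain ⟨τ, h1, h2⟩ := h.main D7.check (by norm_num) (by norm_num) (by norm_num)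
  refine ⟨τ, h1, h2.trans_lt ?_⟩
  norm_num
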